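import Pool.Agent.Helper14.W5.StD

/-!
# Project W5: module TRE (values on translated paths)
-/

set_option autoImplicit false

namespace Pool.Agent.Helper69.W5

open Pool.Agent.Helper14.W5
open Pool.Agent.Helper14.CV (Homog EqC act Tl)

private lemma unit_of {r : ℕ} {a : ℤ} (e : ℤ) (h : ∃ p q : ℤ, a * p + 5 * q = 1) :
    IsUnit ((a : ZMod (5 ^ r)) + 5 * e) := by
  have h1 : ((a : ZMod (5 ^ r)) + 5 * e) = ((a + 5 * e : ℤ) : ZMod (5 ^ r)) := by push_cast; ring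
  rw [h1, ZMod.coe_int_isUnit_iff_isCoprime]
  push_cast
  apply IsCoprime.pow_left
  obtain ⟨p, q, hpq⟩ := h
  exact ⟨q - e * p, p, by linear_combination hpq⟩

theorem hTre (he : S5Edg) (ha : S5PlA) : S5Tre := by
  intro R _ r s G hG a b c d u1 u2 v1 v2 hdet hu hv x y
  obtain ⟨h1, h2, h3⟩ := ha 0 r s x y
  set X : ℤ := (x.val : ℤ) with hX
  set Y : ℤ := rY5 0 x y with hY
  have hx : ((X : ℤ) : ZMod (5 ^ r)) = x := by
    rw [hX]
    simp
  have hyv : ((y.val : ℤ) : ZMod (5 ^ s)) = y := by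
    simp
  have ua : IsUnit ((a : ZMod (5 ^ r)) + 5 * c * x) := by
    have := unit_of (r := r) (a := a) (c * X) ⟨d, -(b * c), by linear_combination hdet⟩
    rw [Int.cast_mul, hx, ← mul_assoc] at this
    exact this
  have ud : IsUnit ((d : ZMod (5 ^ s)) + 5 * b * y) := by
    have := unit_of (r := s) (a := d) (b * (y.val : ℤ)) ⟨a, -(b * c), by linear_combination hdet⟩
    rw [Int.cast_mul, hyv, ← mul_assoc] at this
    exact this
  have hP : Pl5 0 (a + 5 * X * c) (b + X * d) (Y * a + c * (1 + 5 * X * Y)) (5 * Y * b + d * (1 + 5 * X * Y))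
      ((((b : ℤ) : ZMod (5 ^ r)) + ((d : ℤ) : ZMod (5 ^ r)) * x) *
        (((a : ℤ) : ZMod (5 ^ r)) + 5 * ((c : ℤ) : ZMod (5 ^ r)) * x)⁻¹)
      ((((c : ℤ) : ZMod (5 ^ s)) + ((a : ℤ) : ZMod (5 ^ s)) * y) *
        (((d : ℤ) : ZMod (5 ^ s)) + 5 * ((b : ℤ) : ZMod (5 ^ s)) * y)⁻¹) := by
    refine ⟨?_, ?_, ?_⟩
    · linear_combination hdet
    · push_cast
      rw [hx]
      have e := ZMod.mul_inv_of_unit _ ua
      linear_combination (-((b : ZMod (5 ^ r)) + d * x)) * e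
    · have e := ZMod.mul_inv_of_unit _ ud
      have h3' : ((Y : ℤ) : ZMod (5 ^ s)) = y * (1 + 5 * X * Y) := by
        refine h3.trans ?_
        push_cast
        ring
      push_cast
      linear_combination (-((c : ZMod (5 ^ s)) + a * y) * (1 + 5 * X * Y)) * e +
        ((a : ZMod (5 ^ s)) - ((c : ZMod (5 ^ s)) + a * y) * ((d : ZMod (5 ^ s)) + 5 * b * y)⁻¹ * 5 * b) * h3'
  have hE := he R _ 0 r s G hG u1 u2 v1 v2 hu hv _ _ _ _ _ _ hP
  show _ = edge5 0 u1 u2 v1 v2 G _ _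
  rw [hE]
  unfold edge5
  rw [← hX, ← hY]
  congr 2 <;> ring

end Pool.Agent.Helper69.W5
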